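import Pool.Agent.Q195.Kothe.Top

/-!
# Approximate contractibility from a fast approximate unit
-/

open Filter Topology
open scoped NNReal

namespace Q195.Kothe

universe u

variable {I : Type} {P : Set (I → ℝ≥0)}

section deriv

variable {X : Type u} [AddCommGroup X] [Module ℂ X]

/-- The approximately inner derivations. -/
noncomputable def xS (L : Lam P →ₗ[ℂ] X →ₗ[ℂ] X) (D : Lam P →ₗ[ℂ] X) (S : Finset I) : X :=
  ∑ i ∈ S, L (fs P {i} 1) (D (fs P {i} 1)) + L (fs P S 1) (D (fs P S 1)) - D (fs P S 1)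

theorem identity (L R : Lam P →ₗ[ℂ] X →ₗ[ℂ] X)
    (hL : ∀ a b c : Lam P, co c = co a * co b → ∀ x, L c x = L a (L b x))
    (hLR : ∀ a b : Lam P, ∀ x, R b (L a x) = L a (R b x))
    (D : Lam P →ₗ[ℂ] X)
    (hD : ∀ a b c : Lam P, co c = co a * co b → D c = L a (D b) + R b (D a))
    (S : Finset I) (a : Lam P) :
    L a (xS L D S) - R a (xS L D S) = D a - D (a - fs P S (co a)) +
      L (fs P S 1) (D (a - fs P S (co a))) + R (fs P S 1) (D (a - fs P S (co a))) := by
  classical
  set e := fs P S 1 with he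
  set ea := fs P S (co a) with hea
  set δ : I → Lam P := fun i => fs P {i} 1 with hδ
  have m1 : ∀ i, co (co a i • δ i) = co a * co (δ i) := by
    intro i; funext j
    rw [co_smul, Pi.smul_apply, Pi.mul_apply, smul_eq_mul, hδ, co_fs]
    by_cases h : j ∈ ({i} : Finset I)
    · rw [Finset.mem_singleton] at h; subst h; simp
    · simp [h]
  have m2 : ∀ i, co (co a i • δ i) = co (δ i) * co a := by
    intro i; rw [m1, mul_comm]
  have m3 : co ea = co a * co e := by
    funext j
    rw [hea, he, Pi.mul_apply, co_fs, co_fs]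
    by_cases h : j ∈ S <;> simp [h]
  have m4 : co ea = co e * co a := by rw [m3, mul_comm]
  have m5 : co (0 : Lam P) = co (a - ea) * co e := by
    funext j
    rw [co_zero, hea, he, Pi.mul_apply, co_sub, Pi.sub_apply, co_fs, co_fs]
    by_cases h : j ∈ S <;> simp [h]
  have hsum : ∑ i ∈ S, δ i = e := by
    apply co_inj
    funext j
    rw [co_sum, he, co_fs]
    simp only [hδ, co_fs, Finset.mem_singleton]
    rw [Finset.sum_ite_eq]
  -- first term
  have t1 : ∀ i, L a (L (δ i) (D (δ i))) - R a (L (δ i) (D (δ i))) = L (δ i) (D a) := by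
    intro i
    have h1 : L a (L (δ i) (D (δ i))) = co a i • L (δ i) (D (δ i)) := by
      rw [← hL a (δ i) _ (m1 i), map_smul, LinearMap.smul_apply]
    have h2 : R a (D (δ i)) = co a i • D (δ i) - L (δ i) (D a) := by
      have := hD (δ i) a _ (m2 i)
      rw [map_smul] at this
      rw [this]; abel
    have h3 : L (δ i) (L (δ i) (D a)) = L (δ i) (D a) := by
      rw [← hL (δ i) (δ i) (δ i)]
      funext j
      rw [hδ, Pi.mul_apply, co_fs]
      by_cases h : j ∈ ({i} : Finset I) <;> simp [h]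
    rw [h1, hLR, h2, map_sub, map_smul, h3]
    abel
  have t1' : L a (∑ i ∈ S, L (δ i) (D (δ i))) - R a (∑ i ∈ S, L (δ i) (D (δ i))) = L e (D a) := by
    rw [map_sum, map_sum, ← Finset.sum_sub_distrib, Finset.sum_congr rfl fun i _ => t1 i,
      ← hsum, map_sum, LinearMap.sum_apply]
  have r1 : R a (D e) = D ea - L e (D a) := by
    rw [hD e a ea m4]; abel
  have t2 : L a (L e (D e)) = L ea (D e) := by rw [hL a e ea m3]
  have h0 : L (a - ea) (D e) + R e (D (a - ea)) = 0 := by
    rw [← hD (a - ea) e 0 m5, map_zero]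
  have h0' : R e (D (a - ea)) = L ea (D e) - L a (D e) := by
    rw [map_sub, LinearMap.sub_apply] at h0
    have : R e (D (a - ea)) = -(L a (D e) - L ea (D e)) := by
      rw [eq_neg_iff_add_eq_zero, add_comm]; exact h0
    rw [this]; abel
  have hx : xS L D S = ∑ i ∈ S, L (δ i) (D (δ i)) + L e (D e) - D e := rfl
  rw [hx, map_sub, map_sub, map_add, map_add, h0']
  have t1'' : L a (∑ i ∈ S, L (δ i) (D (δ i))) = L e (D a) +
      R a (∑ i ∈ S, L (δ i) (D (δ i))) := by rw [← t1']; abel
  rw [t1'', t2, hLR, r1, map_sub D a ea, map_sub, map_sub]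
  have h3 : L e (L e (D a)) = L e (D a) := by
    rw [← hL e e e]
    funext j
    rw [he, Pi.mul_apply, co_fs]
    by_cases h : j ∈ S <;> simp [h]
  rw [h3]
  abel

end deriv

/-- The sufficient condition for approximate contractibility. -/
theorem approx_of_fast (S : ℕ → Finset I) (t : ℕ → ℝ) (ht0 : ∀ n, 0 < t n) (ht1 : ∀ n, t n ≤ 1)
    (h1 : Tendsto (fun n => (t n : ℂ) • fs P (S n) 1) atTop (𝓝 0))
    (h2 : ∀ a : Lam P, Tendsto (fun n => ((t n)⁻¹ : ℂ) • (a - fs P (S n) (co a))) atTop (𝓝 0)) :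
    ApproxContractible.{u} P := by
  intro X _ _ _ hX L R hB D hD
  obtain ⟨hLc, hRc, hL, hR, hLR⟩ := hB
  have := hX.uniformAddGroup
  obtain ⟨sp, -, hsp⟩ := hX.seminorms
  have hcs : ContinuousSMul ℂ X := hsp.continuousSMul
  refine ⟨ℕ, inferInstance, inferInstance, inferInstance, fun n => xS L (D : Lam P →ₗ[ℂ] X) (S n),
    fun a => ?_⟩
  have hid := fun n => identity L R hL hLR (D : Lam P →ₗ[ℂ] X) hD (S n) a
  simp only [ContinuousLinearMap.coe_coe] at hid
  simp only [hid]
  have d1 : Tendsto (fun n => D (((t n)⁻¹ : ℂ) • (a - fs P (S n) (co a)))) atTop (𝓝 0) := by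
    have := (D.continuous.tendsto 0).comp (h2 a)
    rwa [map_zero] at this
  have d2 : ∀ n, D (a - fs P (S n) (co a)) =
      (t n : ℂ) • D (((t n)⁻¹ : ℂ) • (a - fs P (S n) (co a))) := by
    intro n
    rw [map_smul, smul_smul, mul_inv_cancel₀, one_smul]
    exact_mod_cast (ht0 n).ne'
  have d3 : Tendsto (fun n => D (a - fs P (S n) (co a))) atTop (𝓝 0) := by
    rw [hsp.tendsto_nhds]
    intro i ε hε
    have := (hsp.tendsto_nhds _ _).1 d1 i ε hε
    filter_upwards [this] with n hn
    rw [sub_zero] at hn ⊢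
    rw [d2, map_smul_eq_mul]
    refine lt_of_le_of_lt ?_ hn
    have h3 : ‖(t n : ℂ)‖ ≤ 1 := by
      rw [Complex.norm_real, Real.norm_eq_abs, abs_of_pos (ht0 n)]; exact ht1 n
    exact mul_le_of_le_one_left (apply_nonneg _ _) h3
  have key : ∀ (M : Lam P →ₗ[ℂ] X →ₗ[ℂ] X), Continuous (fun z : Lam P × X => M z.1 z.2) →
      Tendsto (fun n => M (fs P (S n) 1) (D (a - fs P (S n) (co a)))) atTop (𝓝 0) := by
    intro M hM
    have h3 : Tendsto (fun n => ((t n : ℂ) • fs P (S n) 1,
        D (((t n)⁻¹ : ℂ) • (a - fs P (S n) (co a))))) atTop (𝓝 ((0 : Lam P), (0 : X))) :=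
      h1.prodMk_nhds d1
    have h4 := (hM.tendsto (0, 0)).comp h3
    simp only [map_zero] at h4
    refine h4.congr fun n => ?_
    simp only [Function.comp]
    rw [d2 n]
    simp only [map_smul, LinearMap.smul_apply]
    exact smul_comm _ _ _
  have h5 := ((tendsto_const_nhds (x := D a)).sub d3).add (key L hLc)
  have h6 := h5.add (key R hRc)
  simpa using h6

end Q195.Kothe
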