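import Mathlib

/-!
# Kothe algebras, approximate contractibility, nuclearity: definitions
-/

open Filter Topology
open scoped NNReal

namespace Q195.Kothe

universe u

/-! ### Frechet spaces and nuclear spaces -/

/-- `E` (a vector space over `𝕜` with a uniform structure) is a Frechet space: the uniform
structure is compatible with the additive group, the space is Hausdorff and complete, and its
topology comes from an increasing sequence of seminorms. -/
structure IsFrechet (𝕜 : Type) (E : Type u) [RCLike 𝕜] [AddCommGroup E] [Module 𝕜 E]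
    [UniformSpace E] : Prop where
  uniformAddGroup : IsUniformAddGroup E
  hausdorff : T2Space E
  complete : CompleteSpace E
  seminorms : ∃ p : ℕ → Seminorm 𝕜 E, Monotone p ∧ WithSeminorms p

section local_banach

variable {𝕜 : Type} {E : Type u} [RCLike 𝕜] [AddCommGroup E] [Module 𝕜 E]

/-- The vector space `E` equipped with the seminorm `p`. -/
def WithSN (_p : Seminorm 𝕜 E) : Type u := E

noncomputable instance (p : Seminorm 𝕜 E) : SeminormedAddCommGroup (WithSN p) :=
  p.toSeminormedAddCommGroup

noncomputable instance (p : Seminorm 𝕜 E) : NormedSpace 𝕜 (WithSN p) where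
  toModule := (inferInstance : Module 𝕜 E)
  norm_smul_le := fun a b => le_of_eq (map_smul_eq_mul p a b)

/-- The local Banach space: the Hausdorff completion of `(E, p)`, which is the completion of
`E / p⁻¹(0)` normed by `p`. -/
def LocalBanach (p : Seminorm 𝕜 E) : Type u := UniformSpace.Completion (WithSN p)

noncomputable instance (p : Seminorm 𝕜 E) : NormedAddCommGroup (LocalBanach p) :=
  (inferInstance : NormedAddCommGroup (UniformSpace.Completion (WithSN p)))

noncomputable instance (p : Seminorm 𝕜 E) : NormedSpace 𝕜 (LocalBanach p) :=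
  (inferInstance : NormedSpace 𝕜 (UniformSpace.Completion (WithSN p)))

/-- The canonical map from `E` to its local Banach space. -/
noncomputable def toLocal (p : Seminorm 𝕜 E) (x : E) : LocalBanach p :=
  ((show WithSN p from x : WithSN p) : UniformSpace.Completion (WithSN p))

/-- Nuclear operators between normed spaces. -/
def IsNuclearOp {A B : Type u} [NormedAddCommGroup A] [NormedSpace 𝕜 A] [NormedAddCommGroup B]
    [NormedSpace 𝕜 B] (T : A →L[𝕜] B) : Prop :=
  ∃ (f : ℕ → (A →L[𝕜] 𝕜)) (y : ℕ → B),
    Summable (fun n => ‖f n‖ * ‖y n‖) ∧ ∀ x, HasSum (fun n => f n x • y n) (T x)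

/-- The canonical map from the local Banach space of `q` to that of `p` exists and is nuclear. -/
def NuclearLink (q p : Seminorm 𝕜 E) : Prop :=
  ∃ T : LocalBanach q →L[𝕜] LocalBanach p, (∀ x : E, T (toLocal q x) = toLocal p x) ∧ IsNuclearOp T

end local_banach

/-- Nuclear locally convex spaces, in the sense of Grothendieck: for every continuous seminorm `p`
there is a continuous seminorm `q ≥ p` such that the canonical map between the local Banach spaces
of `q` and `p` is nuclear. -/
def IsNuclearSpace (𝕜 : Type) (E : Type u) [RCLike 𝕜] [AddCommGroup E] [Module 𝕜 E]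
    [TopologicalSpace E] : Prop :=
  ∀ p : Seminorm 𝕜 E, Continuous p → ∃ q : Seminorm 𝕜 E, Continuous q ∧ p ≤ q ∧ NuclearLink q p

/-! ### Kothe spaces -/

variable {I : Type}

/-- Kothe sets: countable sets of functions `I → [0, ∞)`, not all vanishing at any index, and
directed. -/
structure IsKotheSet (P : Set (I → ℝ≥0)) : Prop where
  countable : P.Countable
  pos : ∀ i, ∃ p ∈ P, 0 < p i
  directed : ∀ p ∈ P, ∀ q ∈ P, ∃ r ∈ P, ∀ i, max (p i) (q i) ≤ r i

/-- `∑ |x_i| p_i < ∞` for all `p ∈ P`. -/
def InLam (P : Set (I → ℝ≥0)) (x : I → ℂ) : Prop := ∀ p ∈ P, Summable fun i => ‖x i‖ * (p i : ℝ)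

theorem InLam.add {P : Set (I → ℝ≥0)} {x y : I → ℂ} (hx : InLam P x) (hy : InLam P y) :
    InLam P (x + y) := by
  intro p hp
  refine Summable.of_nonneg_of_le (fun i => by positivity) (fun i => ?_) ((hx p hp).add (hy p hp))
  rw [Pi.add_apply, ← add_mul]
  exact mul_le_mul_of_nonneg_right (norm_add_le _ _) (p i).2

theorem InLam.zero (P : Set (I → ℝ≥0)) : InLam P (0 : I → ℂ) := by
  intro p _
  simp

theorem InLam.smul {P : Set (I → ℝ≥0)} (c : ℂ) {x : I → ℂ} (hx : InLam P x) :
    InLam P (c • x) := by
  intro p hp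
  have := (hx p hp).mul_left ‖c‖
  refine this.congr fun i => ?_
  rw [Pi.smul_apply, norm_smul, mul_assoc]

/-- The functions `x` with `∑ |x_i| p_i < ∞` for all `p ∈ P`. -/
def lam (P : Set (I → ℝ≥0)) : Submodule ℂ (I → ℂ) where
  carrier := {x | InLam P x}
  add_mem' := InLam.add
  zero_mem' := InLam.zero P
  smul_mem' := InLam.smul

/-- The Kothe space `λ(P)`. -/
def Lam (P : Set (I → ℝ≥0)) : Type := lam P

noncomputable instance (P : Set (I → ℝ≥0)) : AddCommGroup (Lam P) :=
  inferInstanceAs (AddCommGroup (lam P))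

noncomputable instance (P : Set (I → ℝ≥0)) : Module ℂ (Lam P) :=
  inferInstanceAs (Module ℂ (lam P))

/-- The coordinates of an element of `λ(P)`. -/
def co {P : Set (I → ℝ≥0)} (x : Lam P) : I → ℂ := x.1

/-- `‖x‖_p = ∑ |x_i| p_i`. -/
noncomputable def nrm {P : Set (I → ℝ≥0)} (p : P) (x : Lam P) : ℝ := ∑' i, ‖co x i‖ * (p.1 i : ℝ)

theorem nrm_add {P : Set (I → ℝ≥0)} (p : P) (x y : Lam P) : nrm p (x + y) ≤ nrm p x + nrm p y := by
  have hx : Summable fun i => ‖co x i‖ * (p.1 i : ℝ) := x.2 p.1 p.2
  have hy : Summable fun i => ‖co y i‖ * (p.1 i : ℝ) := y.2 p.1 p.2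
  have hxy : Summable fun i => ‖co (x + y) i‖ * (p.1 i : ℝ) := (x + y).2 p.1 p.2
  unfold nrm
  rw [← hx.tsum_add hy]
  refine hxy.tsum_le_tsum (fun i => ?_) (hx.add hy)
  rw [← add_mul]
  exact mul_le_mul_of_nonneg_right (norm_add_le _ _) (p.1 i).2

theorem nrm_smul {P : Set (I → ℝ≥0)} (p : P) (c : ℂ) (x : Lam P) :
    nrm p (c • x) = ‖c‖ * nrm p x := by
  unfold nrm
  rw [← tsum_mul_left]
  refine tsum_congr fun i => ?_
  have : co (c • x) i = c * co x i := rfl
  rw [this, norm_mul, mul_assoc]

/-- The seminorm `‖x‖_p = ∑ |x_i| p_i` on `λ(P)`. -/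
noncomputable def semi (P : Set (I → ℝ≥0)) (p : P) : Seminorm ℂ (Lam P) :=
  Seminorm.of (nrm p) (nrm_add p) (nrm_smul p)

/-- The topology of `λ(P)`, given by the seminorms `‖·‖_p`, `p ∈ P`. -/
noncomputable instance (P : Set (I → ℝ≥0)) : TopologicalSpace (Lam P) :=
  ⨅ p : P, (semi P p).toSeminormedAddCommGroup.toUniformSpace.toTopologicalSpace

/-- `λ(P)` is a Kothe algebra: it is closed under pointwise multiplication. -/
def IsKotheAlgebra (P : Set (I → ℝ≥0)) : Prop :=
  ∀ x y : Lam P, ∃ z : Lam P, co z = co x * co y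

section bimodule

variable (P : Set (I → ℝ≥0)) (X : Type u) [AddCommGroup X] [Module ℂ X] [TopologicalSpace X]

/-- Bilinear maps from `λ(P)` and `X` to `X`. -/
abbrev Act : Type u := Lam P →ₗ[ℂ] X →ₗ[ℂ] X

variable {P X}

/-- `X` is a topological bimodule over the algebra `A = λ(P)`, with left action `L a x = a · x` and
right action `R a x = x · a`. -/
structure IsBimodule (L R : Act P X) : Prop where
  contL : Continuous fun z : Lam P × X => L z.1 z.2
  contR : Continuous fun z : Lam P × X => R z.1 z.2
  mulL : ∀ a b c : Lam P, co c = co a * co b → ∀ x, L c x = L a (L b x)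
  mulR : ∀ a b c : Lam P, co c = co a * co b → ∀ x, R c x = R b (R a x)
  comm : ∀ a b : Lam P, ∀ x, R b (L a x) = L a (R b x)

/-- Derivations: `D (a b) = a · D b + D a · b`. -/
def IsDerivation (L R : Act P X) (D : Lam P →L[ℂ] X) : Prop :=
  ∀ a b c : Lam P, co c = co a * co b → D c = L a (D b) + R b (D a)

/-- `D` is the pointwise limit of a net of inner derivations `a ↦ a · x_i - x_i · a`. -/
def ApproxInner (L R : Act P X) (D : Lam P →L[ℂ] X) : Prop :=
  ∃ (N : Type) (_ : Preorder N) (_ : IsDirected N (· ≤ ·)) (_ : Nonempty N) (x : N → X),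
    ∀ a : Lam P, Tendsto (fun i => L a (x i) - R a (x i)) atTop (𝓝 (D a))

end bimodule

/-- Approximate contractibility of the Kothe algebra `A = λ(P)`: for every Frechet `A`-bimodule `X`
every continuous derivation `D : A → X` is the pointwise limit of a net of inner derivations. -/
def ApproxContractible (P : Set (I → ℝ≥0)) : Prop :=
  ∀ (X : Type u) [AddCommGroup X] [Module ℂ X] [UniformSpace X], IsFrechet ℂ X →
    ∀ L R : Act P X, IsBimodule L R → ∀ D : Lam P →L[ℂ] X, IsDerivation L R D →
      ApproxInner L R D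

end Q195.Kothe
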