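import Pool.Agent.Q195.Kothe.Top

/-!
# A criterion for non-nuclearity
-/

open Filter Topology
open scoped NNReal

namespace Q195.Kothe

variable {I : Type} {P : Set (I → ℝ≥0)}

/-- The canonical map as a linear map. -/
noncomputable def toLoc (p : Seminorm ℂ (Lam P)) : Lam P →ₗ[ℂ] LocalBanach p where
  toFun := toLocal p
  map_add' := fun x y => by
    exact UniformSpace.Completion.coe_add (show WithSN p from x) (show WithSN p from y)
  map_smul' := fun c x => by
    exact UniformSpace.Completion.coe_smul c (show WithSN p from x)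

theorem norm_toLoc (p : Seminorm ℂ (Lam P)) (x : Lam P) : ‖toLoc p x‖ = p x :=
  UniformSpace.Completion.norm_coe (show WithSN p from x)

theorem dense_toLoc (p : Seminorm ℂ (Lam P)) : DenseRange (toLoc p) :=
  UniformSpace.Completion.denseRange_coe (α := WithSN p)

/-- The weighted coordinates. -/
noncomputable def cw (p : P) (i : I) : Lam P →ₗ[ℂ] ℂ where
  toFun := fun x => (p.1 i : ℂ) * co x i
  map_add' := fun x y => by rw [co_add, Pi.add_apply, mul_add]
  map_smul' := fun c x => by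
    rw [co_smul, Pi.smul_apply, smul_eq_mul, RingHom.id_apply, smul_eq_mul]; ring

theorem norm_cw (p : P) (i : I) (x : Lam P) : ‖cw p i x‖ = ‖co x i‖ * (p.1 i : ℝ) := by
  have : cw p i x = (p.1 i : ℂ) * co x i := rfl
  rw [this, norm_mul, mul_comm]
  congr 1
  have h : ((p.1 i : ℝ≥0) : ℂ) = ((p.1 i : ℝ) : ℂ) := by simp
  rw [h, Complex.norm_real, Real.norm_eq_abs, abs_of_nonneg (NNReal.coe_nonneg _)]

theorem sum_cw_le (p : P) (S : Finset I) (x : Lam P) : ∑ i ∈ S, ‖cw p i x‖ ≤ semi P p x := by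
  simp only [norm_cw]
  exact (summ p x).sum_le_tsum S fun i _ => by positivity

/-- Nuclearity of the link gives a bound for the sums of the ratios of the weights. -/
theorem ratio_bound (p : P) (q : Seminorm ℂ (Lam P)) (hpq : semi P p ≤ q)
    (h : NuclearLink q (semi P p)) : ∃ C : ℝ, ∀ S : Finset I, (∀ i ∈ S, 0 < p.1 i) →
      ∑ i ∈ S, (p.1 i : ℝ) / q (fs P {i} 1) ≤ C := by
  classical
  obtain ⟨T, hT, f, y, hs, hsum⟩ := h
  refine ⟨∑' n, ‖f n‖ * ‖y n‖, fun S hS => ?_⟩
  have hnorm : ∀ i (x : Lam P), ‖cw p i x‖ ≤ 1 * ‖toLoc (semi P p) x‖ := by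
    intro i x
    rw [one_mul, norm_toLoc]
    have := sum_cw_le p {i} x
    rwa [Finset.sum_singleton] at this
  set π : I → LocalBanach (semi P p) →L[ℂ] ℂ := fun i =>
    (cw p i).extendOfNorm (toLoc (semi P p)) with hπ
  have hπe : ∀ i x, π i (toLoc (semi P p) x) = cw p i x := fun i x =>
    LinearMap.extendOfNorm_eq (dense_toLoc _) ⟨1, hnorm i⟩ x
  have hπs : ∀ z : LocalBanach (semi P p), ∑ i ∈ S, ‖π i z‖ ≤ ‖z‖ := by
    intro z
    refine (dense_toLoc (semi P p)).induction_on (p := fun z => ∑ i ∈ S, ‖π i z‖ ≤ ‖z‖) z ?_ ?_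
    · exact isClosed_le (continuous_finsetSum _ fun i _ => (π i).continuous.norm) continuous_norm
    · intro x
      simp only [hπe, norm_toLoc]
      exact sum_cw_le p S x
  have hq0 : ∀ i ∈ S, 0 < q (fs P {i} 1) := by
    intro i hi
    refine lt_of_lt_of_le ?_ (hpq (fs P {i} 1))
    rw [semi_fs]
    simpa using hS i hi
  have hterm : ∀ i ∈ S, HasSum (fun n => f n (toLoc q (fs P {i} 1)) * π i (y n))
      ((p.1 i : ℝ) : ℂ) := by
    intro i hi
    have h1 := hsum (toLoc q (fs P {i} 1))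
    have h2 : T (toLoc q (fs P {i} 1)) = toLoc (semi P p) (fs P {i} 1) := hT _
    rw [h2] at h1
    have h3 := (π i).hasSum h1
    rw [hπe] at h3
    have h4 : cw p i (fs P {i} 1) = ((p.1 i : ℝ) : ℂ) := by
      have : cw p i (fs P {i} 1) = (p.1 i : ℂ) * co (fs P {i} 1) i := rfl
      rw [this, co_fs]
      simp
    rw [h4] at h3
    refine h3.congr_fun ?_ |> fun h => h
    intro n
    simp
  have hfb : ∀ i ∈ S, ∀ n, ‖f n (toLoc q (fs P {i} 1))‖ ≤ ‖f n‖ * q (fs P {i} 1) := by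
    intro i _ n
    have := (f n).le_opNorm (toLoc q (fs P {i} 1))
    rwa [norm_toLoc] at this
  -- the estimate
  have hsumm : ∀ i ∈ S, Summable fun n => ‖f n‖ * ‖π i (y n)‖ := by
    intro i hi
    refine Summable.of_nonneg_of_le (fun n => by positivity) (fun n => ?_) hs
    refine mul_le_mul_of_nonneg_left ?_ (norm_nonneg _)
    refine le_trans ?_ (hπs (y n))
    exact Finset.single_le_sum (f := fun i => ‖π i (y n)‖) (fun _ _ => norm_nonneg _) hi
  have h5 : ∀ i ∈ S, (p.1 i : ℝ) / q (fs P {i} 1) ≤ ∑' n, ‖f n‖ * ‖π i (y n)‖ := by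
    intro i hi
    rw [div_le_iff₀ (hq0 i hi)]
    have h6 : (p.1 i : ℝ) = ‖∑' n, f n (toLoc q (fs P {i} 1)) * π i (y n)‖ := by
      rw [(hterm i hi).tsum_eq, Complex.norm_real, Real.norm_eq_abs, abs_of_nonneg (NNReal.coe_nonneg _)]
    have h7 : ∀ n, ‖f n (toLoc q (fs P {i} 1)) * π i (y n)‖ ≤
        (‖f n‖ * ‖π i (y n)‖) * q (fs P {i} 1) := by
      intro n
      rw [norm_mul]
      calc ‖f n (toLoc q (fs P {i} 1))‖ * ‖π i (y n)‖
          ≤ (‖f n‖ * q (fs P {i} 1)) * ‖π i (y n)‖ :=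
            mul_le_mul_of_nonneg_right (hfb i hi n) (norm_nonneg _)
        _ = _ := by ring
    have h8 : Summable fun n => (‖f n‖ * ‖π i (y n)‖) * q (fs P {i} 1) :=
      (hsumm i hi).mul_right _
    have h9 : Summable fun n => ‖f n (toLoc q (fs P {i} 1)) * π i (y n)‖ :=
      Summable.of_nonneg_of_le (fun n => norm_nonneg _) h7 h8
    rw [h6, ← tsum_mul_right]
    exact (norm_tsum_le_tsum_norm h9).trans (h9.tsum_le_tsum h7 h8)
  refine (Finset.sum_le_sum h5).trans ?_
  rw [← Summable.tsum_finsetSum hsumm]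
  refine (summable_sum hsumm).tsum_le_tsum (fun n => ?_) hs
  rw [← Finset.mul_sum]
  exact mul_le_mul_of_nonneg_left (hπs (y n)) (norm_nonneg _)

end Q195.Kothe
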