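import Pool.Agent.Q195.Kothe.Approx
import Pool.Agent.Q195.Kothe.NonNuc

/-!
# The counterexample
-/

open Filter Topology
open scoped NNReal

namespace Q195.Kothe

universe u

/-- A rapidly growing sequence. -/
def V : ℕ → ℕ
  | 0 => 2
  | (k + 1) => (k + 1) ^ 2 * V k ^ (4 * (k + 1))

theorem V_two (k : ℕ) : 2 ≤ V k := by
  induction k with
  | zero => exact le_rfl
  | succ k ih =>
    have h1 : 2 ^ (4 * (k + 1)) ≤ V k ^ (4 * (k + 1)) := Nat.pow_le_pow_left ih _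
    have h2 : 2 ^ 1 ≤ 2 ^ (4 * (k + 1)) := Nat.pow_le_pow_right (by norm_num) (by omega)
    have h3 : 1 ≤ (k + 1) ^ 2 := Nat.one_le_pow _ _ (by omega)
    calc 2 ≤ 1 * V k ^ (4 * (k + 1)) := by omega
      _ ≤ (k + 1) ^ 2 * V k ^ (4 * (k + 1)) := Nat.mul_le_mul_right _ h3

theorem V_pos (k : ℕ) : 0 < V k := by have := V_two k; omega

theorem V_step (k : ℕ) : V k ≤ V (k + 1) := by
  have h3 : 1 ≤ (k + 1) ^ 2 := Nat.one_le_pow _ _ (by omega)
  have h4 : V k ^ 1 ≤ V k ^ (4 * (k + 1)) := Nat.pow_le_pow_right (V_pos k) (by omega)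
  calc V k = 1 * V k ^ 1 := by simp
    _ ≤ (k + 1) ^ 2 * V k ^ (4 * (k + 1)) := Nat.mul_le_mul h3 h4

theorem V_mono : Monotone V := monotone_nat_of_le_succ V_step

theorem V_ge (k : ℕ) : k ≤ V k := by
  cases k with
  | zero => omega
  | succ k =>
    have h1 : 1 ≤ V k ^ (4 * (k + 1)) := Nat.one_le_pow _ _ (V_pos k)
    calc k + 1 ≤ (k + 1) ^ 2 * 1 := by nlinarith
      _ ≤ (k + 1) ^ 2 * V k ^ (4 * (k + 1)) := Nat.mul_le_mul_left _ h1

/-- `W k = V k ^ 2`. -/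
def W (k : ℕ) : ℕ := V k ^ 2

theorem W_pos (k : ℕ) : 0 < W k := Nat.pow_pos (V_pos k)
theorem W_mono : Monotone W := fun a b h => Nat.pow_le_pow_left (V_mono h) 2

/-- The index set: the `k`-th block has `W k ^ k` elements. -/
abbrev Ix : Type := Σ k : ℕ, Fin (W k ^ k)

/-- The weights. -/
def w (m : ℕ) : Ix → ℝ≥0 := fun i => (W i.1 : ℝ≥0) ^ m

/-- The Kothe set. -/
def P0 : Set (Ix → ℝ≥0) := Set.range w

/-- `w m` as an element of `P0`. -/
def wp (m : ℕ) : P0 := ⟨w m, m, rfl⟩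

theorem w_coe (m : ℕ) (i : Ix) : ((w m i : ℝ≥0) : ℝ) = (W i.1 : ℝ) ^ m := by
  unfold w
  push_cast
  rfl

theorem w_mono {m n : ℕ} (h : m ≤ n) (i : Ix) : w m i ≤ w n i := by
  unfold w
  refine pow_le_pow_right₀ ?_ h
  exact_mod_cast W_pos i.1

theorem isKothe : IsKotheSet P0 where
  countable := Set.countable_range w
  pos := fun i => ⟨w 0, ⟨0, rfl⟩, by simp [w]⟩
  directed := by
    rintro _ ⟨m, rfl⟩ _ ⟨n, rfl⟩
    exact ⟨w (max m n), ⟨_, rfl⟩, fun i => max_le (w_mono (le_max_left _ _) i)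
      (w_mono (le_max_right _ _) i)⟩

theorem isAlg : IsKotheAlgebra P0 := by
  intro x y
  refine ⟨⟨co x * co y, ?_⟩, rfl⟩
  rintro _ ⟨m, rfl⟩
  have hx := summ (wp m) x
  have hy := summ (wp 0) y
  have hb : ∀ i, ‖co y i‖ ≤ ∑' i, ‖co y i‖ := by
    intro i
    have h1 : Summable fun i => ‖co y i‖ := by
      refine hy.congr fun i => ?_
      simp [wp, w]
    exact h1.le_tsum i fun j _ => norm_nonneg _
  refine Summable.of_nonneg_of_le (fun i => by positivity) (fun i => ?_)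
    (hx.mul_right (∑' i, ‖co y i‖))
  rw [Pi.mul_apply, norm_mul]
  have h2 : (0 : ℝ) ≤ (w m i : ℝ) := NNReal.coe_nonneg _
  calc ‖co x i‖ * ‖co y i‖ * (w m i : ℝ) = (‖co x i‖ * (w m i : ℝ)) * ‖co y i‖ := by ring
    _ ≤ (‖co x i‖ * (w m i : ℝ)) * ∑' i, ‖co y i‖ :=
      mul_le_mul_of_nonneg_left (hb i) (by positivity)

/-- The first `n + 1` blocks. -/
def Sn (n : ℕ) : Finset Ix := (Finset.range (n + 1)).sigma fun _ => Finset.univ

theorem mem_Sn {n : ℕ} {i : Ix} : i ∈ Sn n ↔ i.1 ≤ n := by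
  unfold Sn
  rw [Finset.mem_sigma]
  simp [Nat.lt_succ_iff]

/-- The scaling. -/
noncomputable def tn (n : ℕ) : ℝ := 1 / (V (n + 1) : ℝ)

theorem tn_pos (n : ℕ) : 0 < tn n := by
  unfold tn
  have : (0 : ℝ) < V (n + 1) := by exact_mod_cast V_pos _
  positivity

theorem tn_le (n : ℕ) : tn n ≤ 1 := by
  unfold tn
  have : (1 : ℝ) ≤ V (n + 1) := by exact_mod_cast V_pos _
  rw [div_le_one (by linarith)]
  exact this

theorem semi_en (m n : ℕ) (h : m ≤ n) :
    tn n * semi P0 (wp m) (fs P0 (Sn n) 1) ≤ 1 / (n + 1) := by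
  have h1 : semi P0 (wp m) (fs P0 (Sn n) 1) = ∑ k ∈ Finset.range (n + 1), (W k : ℝ) ^ (k + m) := by
    rw [semi_fs]
    unfold Sn
    rw [Finset.sum_sigma]
    refine Finset.sum_congr rfl fun k _ => ?_
    have h2 : ∀ j : Fin (W k ^ k), ‖(1 : Ix → ℂ) ⟨k, j⟩‖ * ((wp m).1 ⟨k, j⟩ : ℝ) =
        (W k : ℝ) ^ m := by
      intro j
      have : ((wp m).1 ⟨k, j⟩ : ℝ) = (W k : ℝ) ^ m := w_coe m ⟨k, j⟩
      rw [this]; simp
    rw [Finset.sum_congr rfl fun j _ => h2 j, Finset.sum_const, Finset.card_univ, Fintype.card_fin,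
      nsmul_eq_mul, pow_add]
    push_cast
    ring
  have h3 : ∑ k ∈ Finset.range (n + 1), (W k : ℝ) ^ (k + m) ≤
      (n + 1) * (V n : ℝ) ^ (4 * (n + 1)) := by
    have h4 : ∀ k ∈ Finset.range (n + 1), (W k : ℝ) ^ (k + m) ≤ (V n : ℝ) ^ (4 * (n + 1)) := by
      intro k hk
      have hk' : k ≤ n := by simpa [Nat.lt_succ_iff] using hk
      have h5 : (W k : ℝ) ≤ (W n : ℝ) := by exact_mod_cast W_mono hk'
      have h6 : (1 : ℝ) ≤ (W n : ℝ) := by exact_mod_cast W_pos n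
      have h7 : (1 : ℝ) ≤ (V n : ℝ) := by exact_mod_cast V_pos n
      calc (W k : ℝ) ^ (k + m) ≤ (W n : ℝ) ^ (k + m) := pow_le_pow_left₀ (Nat.cast_nonneg _) h5 _
        _ ≤ (W n : ℝ) ^ (2 * n) := pow_le_pow_right₀ h6 (by omega)
        _ = (V n : ℝ) ^ (4 * n) := by
          unfold W; push_cast; rw [← pow_mul]; congr 1; ring
        _ ≤ (V n : ℝ) ^ (4 * (n + 1)) := pow_le_pow_right₀ h7 (by omega)
    refine (Finset.sum_le_sum h4).trans ?_
    rw [Finset.sum_const, Finset.card_range, nsmul_eq_mul]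
    push_cast
    exact le_rfl
  rw [h1]
  have hV : (V (n + 1) : ℝ) = (n + 1) ^ 2 * (V n : ℝ) ^ (4 * (n + 1)) := by
    have : V (n + 1) = (n + 1) ^ 2 * V n ^ (4 * (n + 1)) := rfl
    rw [this]; push_cast; ring
  have hVn : (0 : ℝ) < (V n : ℝ) ^ (4 * (n + 1)) := by
    have : (0 : ℝ) < V n := by exact_mod_cast V_pos n
    positivity
  have hn : (0 : ℝ) < (n : ℝ) + 1 := by positivity
  calc tn n * ∑ k ∈ Finset.range (n + 1), (W k : ℝ) ^ (k + m)
      ≤ tn n * ((n + 1) * (V n : ℝ) ^ (4 * (n + 1))) :=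
        mul_le_mul_of_nonneg_left h3 (tn_pos n).le
    _ = 1 / (n + 1) := by
      unfold tn
      rw [hV]
      field_simp

theorem semi_tail (m n : ℕ) (a : Lam P0) :
    (tn n)⁻¹ * semi P0 (wp m) (a - fs P0 (Sn n) (co a)) ≤
      semi P0 (wp (m + 1)) a * (1 / (n + 1)) := by
  have hV : (0 : ℝ) < V (n + 1) := by exact_mod_cast V_pos _
  have hVn : ((n : ℝ) + 1) ≤ V (n + 1) := by exact_mod_cast V_ge (n + 1)
  have hn : (0 : ℝ) < (n : ℝ) + 1 := by positivity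
  have h1 : semi P0 (wp m) (a - fs P0 (Sn n) (co a)) ≤
      semi P0 (wp (m + 1)) a * (1 / (V (n + 1) : ℝ) ^ 2) := by
    rw [semi_apply, semi_apply, ← tsum_mul_right]
    refine (summ (wp m) _).tsum_le_tsum (fun i => ?_) ((summ (wp (m + 1)) a).mul_right _)
    have e1 : ((wp m).1 i : ℝ) = (W i.1 : ℝ) ^ m := w_coe m i
    have e2 : ((wp (m + 1)).1 i : ℝ) = (W i.1 : ℝ) ^ (m + 1) := w_coe (m + 1) i
    rw [e1, e2, co_sub, Pi.sub_apply, co_fs]
    by_cases h : i ∈ Sn n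
    · rw [if_pos h, sub_self, norm_zero, zero_mul]
      positivity
    · rw [if_neg h, sub_zero, pow_succ]
      rw [mem_Sn] at h
      push Not at h
      have h2 : (V (n + 1) : ℝ) ^ 2 ≤ (W i.1 : ℝ) := by
        have : V (n + 1) ^ 2 ≤ W i.1 := W_mono h
        exact_mod_cast this
      have h3 : (1 : ℝ) ≤ (W i.1 : ℝ) * (1 / (V (n + 1) : ℝ) ^ 2) := by
        rw [mul_one_div, le_div_iff₀ (by positivity), one_mul]
        exact h2
      calc ‖co a i‖ * (W i.1 : ℝ) ^ m = ‖co a i‖ * (W i.1 : ℝ) ^ m * 1 := by ring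
        _ ≤ ‖co a i‖ * (W i.1 : ℝ) ^ m * ((W i.1 : ℝ) * (1 / (V (n + 1) : ℝ) ^ 2)) :=
          mul_le_mul_of_nonneg_left h3 (by positivity)
        _ = _ := by ring
  have h4 : (tn n)⁻¹ = V (n + 1) := by unfold tn; rw [one_div, inv_inv]
  rw [h4]
  have h0 : 0 ≤ semi P0 (wp (m + 1)) a := apply_nonneg _ _
  calc (V (n + 1) : ℝ) * semi P0 (wp m) (a - fs P0 (Sn n) (co a))
      ≤ V (n + 1) * (semi P0 (wp (m + 1)) a * (1 / (V (n + 1) : ℝ) ^ 2)) :=
        mul_le_mul_of_nonneg_left h1 hV.le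
    _ = semi P0 (wp (m + 1)) a * (1 / V (n + 1)) := by field_simp
    _ ≤ semi P0 (wp (m + 1)) a * (1 / (n + 1)) :=
        mul_le_mul_of_nonneg_left (one_div_le_one_div_of_le hn hVn) h0

theorem lim_aux : Tendsto (fun n : ℕ => 1 / ((n : ℝ) + 1)) atTop (𝓝 0) :=
  tendsto_one_div_add_atTop_nhds_zero_nat

theorem approx : ApproxContractible.{u} P0 := by
  refine approx_of_fast Sn tn tn_pos tn_le ?_ fun a => ?_
  · rw [tendsto_zero_iff]
    rintro ⟨_, m, rfl⟩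
    change Tendsto (fun n => semi P0 (wp m) ((tn n : ℂ) • fs P0 (Sn n) 1)) atTop (𝓝 0)
    refine squeeze_zero' (Eventually.of_forall fun n => apply_nonneg _ _) ?_ lim_aux
    filter_upwards [eventually_ge_atTop m] with n hn
    rw [map_smul_eq_mul, Complex.norm_real, Real.norm_eq_abs, abs_of_pos (tn_pos n)]
    exact semi_en m n hn
  · rw [tendsto_zero_iff]
    rintro ⟨_, m, rfl⟩
    change Tendsto (fun n => semi P0 (wp m) (((tn n)⁻¹ : ℂ) • (a - fs P0 (Sn n) (co a))))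
      atTop (𝓝 0)
    have h0 := lim_aux.const_mul (semi P0 (wp (m + 1)) a)
    rw [mul_zero] at h0
    refine squeeze_zero' (Eventually.of_forall fun n => apply_nonneg _ _)
      (Eventually.of_forall fun n => ?_) h0
    rw [map_smul_eq_mul, norm_inv, Complex.norm_real, Real.norm_eq_abs, abs_of_pos (tn_pos n)]
    exact semi_tail m n a

theorem notNuclear : ¬ IsNuclearSpace ℂ (Lam P0) := by
  classical
  intro h
  obtain ⟨q, hq, hpq, hlink⟩ := h (semi P0 (wp 1)) (semi_continuous _)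
  obtain ⟨C, hC⟩ := ratio_bound (wp 1) q hpq hlink
  have hne : Nonempty P0 := ⟨wp 0⟩
  obtain ⟨s, A, hA, hqA⟩ := Seminorm.bound_of_continuous withSem q hq
  -- a common bound for the weights in `s`
  obtain ⟨M, hM⟩ : ∃ M : ℕ, ∀ p ∈ s, ∀ i, p.1 i ≤ w M i := by
    clear hqA
    induction s using Finset.induction_on with
    | empty => exact ⟨0, by simp⟩
    | insert p s hp ih =>
      obtain ⟨M, hM⟩ := ih
      obtain ⟨m, hm⟩ := p.2
      refine ⟨max M m, fun p' hp' i => ?_⟩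
      rcases Finset.mem_insert.1 hp' with rfl | hp'
      · rw [← hm]; exact w_mono (le_max_right _ _) i
      · exact (hM p' hp' i).trans (w_mono (le_max_left _ _) i)
  have hsup : s.sup (semi P0) ≤ semi P0 (wp M) := Finset.sup_le fun p hp => semi_mono (hM p hp)
  have hqM : ∀ i : Ix, q (fs P0 {i} 1) ≤ A * (W i.1 : ℝ) ^ M := by
    intro i
    have h1 : q (fs P0 {i} 1) ≤ (A • s.sup (semi P0)) (fs P0 {i} 1) := hqA _
    have h2 : (A • s.sup (semi P0)) (fs P0 {i} 1) = A * (s.sup (semi P0)) (fs P0 {i} 1) := rfl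
    have h3 : (s.sup (semi P0)) (fs P0 {i} 1) ≤ semi P0 (wp M) (fs P0 {i} 1) := hsup _
    have h4 : semi P0 (wp M) (fs P0 {i} 1) = (W i.1 : ℝ) ^ M := by
      rw [semi_fs]
      have : ((wp M).1 i : ℝ) = (W i.1 : ℝ) ^ M := w_coe M i
      simp [this]
    rw [h2] at h1
    refine h1.trans (mul_le_mul_of_nonneg_left (h3.trans h4.le) (NNReal.coe_nonneg _))
  have hA0 : (0 : ℝ) < A := lt_of_le_of_ne (NNReal.coe_nonneg _) (by
    intro h; exact hA (by exact_mod_cast h.symm))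
  -- blocks
  have hblock : ∀ k : ℕ, M ≤ k → (W k : ℝ) ≤ A * C := by
    intro k hk
    have h1 := hC (Finset.univ.image fun j : Fin (W k ^ k) => (⟨k, j⟩ : Ix)) (by
      intro i _
      have : (0 : ℝ≥0) < w 1 i := by
        unfold w
        have := W_pos i.1
        positivity
      exact this)
    rw [Finset.sum_image (fun a _ b _ hab => by simpa using hab)] at h1
    have hW : (0 : ℝ) < W k := by exact_mod_cast W_pos k
    have hW1 : (1 : ℝ) ≤ W k := by exact_mod_cast W_pos k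
    have h2 : ∀ j : Fin (W k ^ k), (W k : ℝ) / (A * (W k : ℝ) ^ M) ≤
        ((wp 1).1 (⟨k, j⟩ : Ix) : ℝ) / q (fs P0 {(⟨k, j⟩ : Ix)} 1) := by
      intro j
      have e1 : ((wp 1).1 (⟨k, j⟩ : Ix) : ℝ) = (W k : ℝ) := by
        have : ((wp 1).1 (⟨k, j⟩ : Ix) : ℝ) = (W k : ℝ) ^ 1 := w_coe 1 ⟨k, j⟩
        rw [this, pow_one]
      rw [e1]
      have h3 := hqM ⟨k, j⟩
      have h4 : 0 < q (fs P0 {(⟨k, j⟩ : Ix)} 1) := by
        refine lt_of_lt_of_le ?_ (hpq _)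
        rw [semi_fs]
        simp [e1, hW]
      exact div_le_div_of_nonneg_left hW.le h4 h3
    have h5 := (Finset.sum_le_sum fun j (_ : j ∈ Finset.univ) => h2 j).trans h1
    rw [Finset.sum_const, Finset.card_univ, Fintype.card_fin, nsmul_eq_mul] at h5
    push_cast at h5
    have h6 : (W k : ℝ) ^ k * ((W k : ℝ) / (A * (W k : ℝ) ^ M)) =
        (W k : ℝ) ^ (k - M) * W k / A := by
      have : (W k : ℝ) ^ k = (W k : ℝ) ^ (k - M) * (W k : ℝ) ^ M := by
        rw [← pow_add, Nat.sub_add_cancel hk]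
      rw [this]
      field_simp
    rw [h6, div_le_iff₀ hA0] at h5
    have h7 : (1 : ℝ) ≤ (W k : ℝ) ^ (k - M) := one_le_pow₀ hW1
    calc (W k : ℝ) = 1 * W k := by ring
      _ ≤ (W k : ℝ) ^ (k - M) * W k := mul_le_mul_of_nonneg_right h7 hW.le
      _ ≤ C * A := h5
      _ = A * C := by ring
  obtain ⟨k, hk⟩ := exists_nat_gt (A * C)
  have h1 := hblock (max M k) (le_max_left _ _)
  have h2 : (k : ℝ) ≤ (W (max M k) : ℝ) := by
    have h3 : k ≤ W (max M k) := by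
      calc k ≤ max M k := le_max_right _ _
        _ ≤ V (max M k) := V_ge _
        _ ≤ V (max M k) ^ 2 := Nat.le_self_pow (by norm_num) _
    exact_mod_cast h3
  linarith

end Q195.Kothe
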