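import Pool.Agent.Q195.Kothe.Defs

/-!
# Basic facts on Kothe spaces
-/

open Filter Topology
open scoped NNReal

namespace Q195.Kothe

variable {I : Type} {P : Set (I → ℝ≥0)}

theorem semi_apply (p : P) (x : Lam P) : semi P p x = ∑' i, ‖co x i‖ * (p.1 i : ℝ) := rfl

theorem summ (p : P) (x : Lam P) : Summable fun i => ‖co x i‖ * (p.1 i : ℝ) := x.2 p.1 p.2

instance : IsTopologicalAddGroup (Lam P) := by
  refine topologicalAddGroup_iInf fun p => ?_
  exact @SeminormedAddCommGroup.toIsTopologicalAddGroup _ (semi P p).toSeminormedAddCommGroup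

theorem withSem : WithSeminorms (semi P) := by
  rw [SeminormFamily.withSeminorms_iff_topologicalSpace_eq_iInf]
  rfl

theorem semi_continuous (p : P) : Continuous (semi P p) := withSem.continuous_seminorm p

theorem tendsto_zero_iff {N : Type*} (u : N → Lam P) (l : Filter N) :
    Tendsto u l (𝓝 0) ↔ ∀ p : P, Tendsto (fun n => semi P p (u n)) l (𝓝 0) := by
  rw [withSem.tendsto_nhds]
  refine forall_congr' fun p => ?_
  constructor
  · intro h
    rw [Metric.tendsto_nhds]
    intro ε hε
    filter_upwards [h ε hε] with n hn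
    rw [sub_zero] at hn
    rw [Real.dist_eq, sub_zero, abs_of_nonneg (apply_nonneg _ _)]
    exact hn
  · intro h ε hε
    filter_upwards [h.eventually_lt_const hε] with n hn
    rw [sub_zero]
    exact hn

theorem semi_mono {p q : P} (h : ∀ i, p.1 i ≤ q.1 i) : semi P p ≤ semi P q := by
  intro x
  refine (summ p x).tsum_le_tsum (fun i => ?_) (summ q x)
  exact mul_le_mul_of_nonneg_left (by exact_mod_cast h i) (norm_nonneg _)

open Classical in
/-- The element of `λ(P)` which is `f` on the finite set `S` and `0` elsewhere. -/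
noncomputable def fs (P : Set (I → ℝ≥0)) (S : Finset I) (f : I → ℂ) : Lam P :=
  ⟨fun i => if i ∈ S then f i else 0, fun p _ => by
    refine summable_of_ne_finset_zero (s := S) fun i hi => ?_
    simp [hi]⟩

open Classical in
theorem co_fs (S : Finset I) (f : I → ℂ) (i : I) :
    co (fs P S f) i = if i ∈ S then f i else 0 := rfl

theorem co_add (x y : Lam P) : co (x + y) = co x + co y := rfl
theorem co_sub (x y : Lam P) : co (x - y) = co x - co y := rfl
theorem co_smul (c : ℂ) (x : Lam P) : co (c • x) = c • co x := rfl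
theorem co_zero : co (0 : Lam P) = 0 := rfl
theorem co_inj {x y : Lam P} (h : co x = co y) : x = y := Subtype.ext h

theorem co_sum {ι : Type*} (s : Finset ι) (x : ι → Lam P) (i : I) :
    co (∑ j ∈ s, x j) i = ∑ j ∈ s, co (x j) i := by
  classical
  induction s using Finset.induction_on with
  | empty => simp [co_zero]
  | insert j s hj ih => rw [Finset.sum_insert hj, Finset.sum_insert hj, co_add, Pi.add_apply, ih]

theorem semi_fs (p : P) (S : Finset I) (f : I → ℂ) :
    semi P p (fs P S f) = ∑ i ∈ S, ‖f i‖ * (p.1 i : ℝ) := by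
  classical
  rw [semi_apply, tsum_eq_sum (s := S)]
  · exact Finset.sum_congr rfl fun i hi => by rw [co_fs, if_pos hi]
  · intro i hi
    rw [co_fs, if_neg hi, norm_zero, zero_mul]

end Q195.Kothe
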